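import Mathlib
import Pool.Agent.Helper951.FanK

set_option autoImplicit false

namespace Pool.Agent.Results.MP_0daf67_co.NonDivisible

open Finset Pool.Agent.Helper951.Defs Pool.Agent.Helper951.Spec Pool.Agent.Helper951.FrB
open Pool.Agent.Helper951.Core Pool.Agent.Helper951.FrC Pool.Agent.Helper951.FrD
open Pool.Agent.Helper951.FanA Pool.Agent.Helper951.FanC Pool.Agent.Helper951.FanD
open Pool.Agent.Helper951.FanJ

/-- A fan-free graph whose spectral radius is at least that of `S1` is `S1`. -/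
lemma main_iso (k l m n : ℕ) (hk : 2 ≤ k) (hl1 : 1 ≤ l) (hl : l < k)
    (hm : (10 ^ 60 * k ^ 60 * 2 ^ (4 * k)) ^ 2 + k ^ 2 + k ≤ m)
    (hmod : m + k * (k + 1) / 2 ≡ l [MOD k])
    (hn : (n : ℚ) = ((m : ℚ) - l) / k + (k + 3) / 2)
    {V : Type} [Fintype V] [DecidableEq V] (G : SimpleGraph V) [DecidableRel G.Adj]
    (hG : G.edgeFinset.card = m) (hiso : ∀ v, ∃ w, G.Adj v w)
    (hfree : ¬ (fan (2 * k + 1)).IsContained G) (hge : specRad (S1 n k l) ≤ specRad G) :
    Nonempty (G ≃g S1 n k l) := by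
  obtain ⟨K, hKdef⟩ : ∃ K : ℝ, K = k := ⟨_, rfl⟩
  obtain ⟨B, hBdef⟩ : ∃ B : ℝ, B = 2 ^ (4 * k) := ⟨_, rfl⟩
  have hB1 : 1 ≤ B := by rw [hBdef]; exact one_le_pow₀ (by norm_num)
  have hK : (2 : ℝ) ≤ K := by rw [hKdef]; exact_mod_cast hk
  have hne : Nonempty V := by
    by_contra hcon
    rw [not_nonempty_iff] at hcon
    have h1 : G.edgeFinset.card = 0 := by
      rw [Finset.card_eq_zero, Finset.eq_empty_iff_forall_notMem]
      intro e
      induction e with
      | _ a b => exact (IsEmpty.false a).elim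
    have h2 : 0 < k ^ 2 := by positivity
    omega
  obtain ⟨x, u, h⟩ := exists_sit G
  set lam := specRad G with hlamdef
  have hlR : (l : ℝ) ≤ K - 1 := by
    have : (l : ℝ) + 1 ≤ K := by rw [hKdef]; exact_mod_cast hl
    linarith
  have hl1R : (1 : ℝ) ≤ l := by exact_mod_cast hl1
  obtain ⟨c0, hc0def⟩ : ∃ c0 : ℝ, c0 = (l : ℝ) * (K - l) / K := ⟨_, rfl⟩
  have hc0K : c0 * K = l * (K - l) := by rw [hc0def]; field_simp
  have hc0 : 0 ≤ c0 := by
    rw [hc0def]
    apply div_nonneg (mul_nonneg _ _) _ <;> linarith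
  have hc1 : c0 ≤ K / 4 := by
    rw [hc0def, div_le_iff₀ (by linarith)]
    have := sq_nonneg (K - 2 * l)
    linarith
  obtain ⟨M, hMdef⟩ : ∃ M : ℝ, M = 10 ^ 60 * K ^ 60 * B := ⟨_, rfl⟩
  have hM0 : 0 ≤ M := by rw [hMdef]; positivity
  have hmR : M ^ 2 + K ^ 2 + K ≤ (m : ℝ) := by
    rw [hMdef, hKdef, hBdef]; exact_mod_cast hm
  have hnR : (n : ℝ) = ((m : ℝ) - l) / K + (K + 3) / 2 := by
    have := congrArg (fun q : ℚ => (q : ℝ)) hn
    push_cast at this
    rw [hKdef]
    exact this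
  have hnk : K + 1 ≤ (n : ℝ) := by
    have h1 : K ≤ ((m : ℝ) - l) / K := by
      rw [le_div_iff₀ (by linarith)]
      have : 0 ≤ M ^ 2 := by positivity
      linarith
    linarith
  have ht : ((n - k - 1 : ℕ) : ℝ) = n - K - 1 := by
    have h1 : k + 1 ≤ n := by
      have : ((k + 1 : ℕ) : ℝ) ≤ n := by push_cast; rw [← hKdef]; exact hnk
      exact_mod_cast this
    rw [Nat.sub_sub, Nat.cast_sub h1]
    push_cast
    rw [hKdef]
    ring
  have hkt : K * ((n - k - 1 : ℕ) : ℝ) = m - l - K * (K - 1) / 2 := by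
    rw [ht, hnR]
    field_simp
    ring
  obtain ⟨hθ1, hθ2⟩ := S1_low n k l hl1 hl
  rw [← hKdef, hkt] at hθ2
  rw [← hKdef] at hθ1
  set θ := specRad (S1 n k l) with hθ
  have hmEE : EE G univ univ / 2 = m := by rw [EE_univ_eq, hG]; ring
  have hlow : EE G univ univ / 2 - K * (K - 1) / 2 - c0 ≤ lam ^ 2 - (K - 1) * lam := by
    have h1 : 0 ≤ (lam - θ) * (lam + θ - (K - 1)) :=
      mul_nonneg (by linarith) (by linarith)
    have h2 : (l : ℝ) ^ 2 / K = l - c0 := by
      rw [hc0def]; field_simp; ring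
    rw [hmEE]
    rw [h2] at hθ2
    linarith
  have hlam : M ≤ lam := by
    rw [hmEE] at hlow
    have h1 : 0 ≤ (K - 1) * lam := mul_nonneg (by linarith) (by linarith)
    by_contra hcon
    push Not at hcon
    have h2 : lam ^ 2 < M ^ 2 := pow_lt_pow_left₀ hcon (by linarith) two_ne_zero
    have h3 : 0 ≤ K ^ 2 := by positivity
    linarith
  have hpw : ∀ j : ℕ, j ≤ 60 → 10 ^ 60 * K ^ j ≤ M ∧ 10 ^ 60 * K ^ j * B ≤ M := by
    intro j hj
    have h1 : K ^ j ≤ K ^ 60 := pow_le_pow_right₀ (by linarith) hj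
    have h2 : 10 ^ 60 * K ^ j ≤ 10 ^ 60 * K ^ 60 := mul_le_mul_of_nonneg_left h1 (by norm_num)
    have h3 : 10 ^ 60 * K ^ j * B ≤ 10 ^ 60 * K ^ 60 * B :=
      mul_le_mul_of_nonneg_right h2 (by linarith)
    have h4 : 10 ^ 60 * K ^ j * 1 ≤ 10 ^ 60 * K ^ j * B :=
      mul_le_mul_of_nonneg_left hB1 (by positivity)
    rw [hMdef]
    exact ⟨by linarith, h3⟩
  have hp4 := (hpw 4 (by norm_num)).1
  have hp1 := (hpw 1 (by norm_num)).1
  have hp0 := (hpw 0 (by norm_num)).1
  have hp50 := (hpw 50 (by norm_num)).1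
  have hp10 := (hpw 10 (by norm_num)).2
  rw [pow_one] at hp1
  rw [pow_zero] at hp0
  have hK4 : 0 ≤ K ^ 4 := by positivity
  have hlam4 : 1000 * K ^ 4 ≤ lam := by linarith
  have hlampos : 0 < lam := by linarith
  have hl1' : 100 * K ≤ lam := by linarith
  -- the balanced case is impossible
  have b : Bal G k K lam x u := by
    refine ⟨h, hk, hKdef, hfree, ?_, ?_⟩
    · have h1 : 0 ≤ K ^ 2 := by positivity
      linarith
    · have : 0 ≤ K ^ 50 := by positivity
      linarith
  have p : Poor G k K lam x u B := by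
    refine ⟨b, hBdef, ?_, ?_⟩
    · have : 0 ≤ K ^ 10 * B := by positivity
      linarith
    · intro w
      by_contra hcon
      push Not at hcon
      exact Pool.Agent.Helper951.FanI.balanced_false (Rich.of_rich b w hcon)
  obtain ⟨hcard, hdgS⟩ := p.main
  have hS : ∀ s ∈ PP G x u, G.Adj u s := fun s hs => ((mem_PP s).1 hs).1
  have hQx : ∀ q ∈ rst G u (PP G x u), x q < 1 / 2 := by
    intro q hq
    rw [mem_rst, mem_PP, not_and] at hq
    have h2 := hq.2 hq.1
    push Not at h2
    exact h2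
  set S := PP G x u with hSdef
  have hcardK : (S.card : ℝ) = K - 1 := by
    have : (S.card : ℝ) + 1 = K := by rw [hKdef]; exact_mod_cast hcard
    linarith
  set T := rst G u S with hT
  set W := far G u with hW
  have hTT : XX G x T T - EE G T T / 2 ≤ 0 := by
    rw [XX_self, EE_eq, Finset.sum_div, ← Finset.sum_sub_distrib]
    apply Finset.sum_nonpos
    intro q hq
    have h1 := dg_nonneg (G := G) T q
    have h2 := hQx q hq
    have h3 : dg G T q * x q ≤ dg G T q * (1 / 2) := mul_le_mul_of_nonneg_left h2.le h1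
    linarith
  have hR := refined h S hS K c0 hcardK hlow (by
    intro s hs
    have h1 := hdgS s hs
    have h3 := dg_nonneg (G := G) S s
    linarith)
  rw [← hT, ← hW] at hR
  have hR' : ((K - 1) * (K - 2) - EE G S S) / 2 + q1 G x S T + q2 G x S T / 2
      + (q2 G x W S + q2 G x W T) + EE G W W / 2 ≤ K / 4 := by
    linarith
  have hnh := Pool.Agent.Helper951.FanK.no_heavy h k hk S hS hcard hfree
    (by rw [← hKdef]; exact hlam4) (by rw [← hKdef]; exact hR')
  rw [← hW] at hnh
  -- everything else is light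
  have hd1 : 0 ≤ (K - 1) * (K - 2) - EE G S S := by
    have h1 : EE G S S ≤ ∑ s ∈ S, (K - 2) := by
      rw [EE_eq]
      apply Finset.sum_le_sum
      intro s hs
      have := dg_self_le (G := G) S s hs
      linarith
    rw [Finset.sum_const, nsmul_eq_mul, hcardK] at h1
    linarith
  have hq1 := q1_nonneg h S T
  have hq2 := q2_nonneg h S T
  have hWW := EE_nonneg (G := G) W W
  have hWS := EE_nonneg (G := G) W S
  have hWT := EE_nonneg (G := G) W T
  have hq3 : ∀ B : Finset V, EE G W B / 2 ≤ q2 G x W B := by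
    intro B
    rw [q2_dg, EE_eq, Finset.sum_div]
    apply Finset.sum_le_sum
    intro w hw
    have h1 := hnh w hw
    have h2 := dg_nonneg (G := G) B w
    have h3 : dg G B w * (1 / 2) ≤ dg G B w * (1 - x w) :=
      mul_le_mul_of_nonneg_left (by linarith) h2
    linarith
  have h3a := hq3 S
  have h3b := hq3 T
  have hq1' : q1 G x S T ≤ K / 4 := by linarith
  have hWST : EE G W S + EE G W T ≤ K / 2 := by linarith
  have hWW' : EE G W W ≤ K / 2 := by linarith
  have hrow : ∀ v, lam * x v ≤ ad G v u + dg G S v + ∑ w ∈ T, ad G v w * x w + dg G W v := by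
    intro v
    rw [← h.ev v, split S hS (fun w => ad G v w * x w), h.xu, mul_one]
    have hle : ∀ (A : Finset V), ∑ w ∈ A, ad G v w * x w ≤ dg G A v := by
      intro A
      apply Finset.sum_le_sum
      intro w _
      exact mul_le_of_le_one_right (ad_nonneg G v w) (h.x1 w)
    have h1 := hle S
    have h3 := hle W
    linarith
  have hsum := sum_U h S hS
  rw [← hT] at hsum
  have hSx : ∑ s ∈ S, x s ≤ K - 1 := by
    calc ∑ s ∈ S, x s ≤ ∑ s ∈ S, (1:ℝ) := Finset.sum_le_sum (fun s _ => h.x1 s)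
      _ = K - 1 := by rw [Finset.sum_const, nsmul_eq_mul, mul_one, hcardK]
  -- vertices complete to `S`
  set F := T.filter (fun z => ∀ i ∈ S, G.Adj i z) with hF
  have hFT : F ⊆ T := Finset.filter_subset _ _
  have hFc : k + 2 ≤ F.card := by
    have hcc := common_card (G := G) S T x h.x0 h.x1
    have hS0 : ∑ i ∈ S, ∑ z ∈ T, (1 - ad G i z) * x z = q1 G x S T := rfl
    rw [hS0, ← hF] at hcc
    have h1 : ((k + 2 : ℕ) : ℝ) ≤ (F.card : ℝ) := by
      push_cast
      rw [← hKdef]
      linarith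
    exact_mod_cast h1
  have hTF : ∑ t ∈ T \ F, x t ≤ K / 4 := by
    refine le_trans ?_ hq1'
    have h1 : ∀ t ∈ T \ F, x t ≤ ∑ s ∈ S, (1 - ad G s t) * x t := by
      intro t ht
      rw [Finset.mem_sdiff, hF, Finset.mem_filter, not_and] at ht
      have h2 := ht.2 ht.1
      push Not at h2
      obtain ⟨s, hs, hna⟩ := h2
      have h3 : (1 - ad G s t) * x t ≤ ∑ s ∈ S, (1 - ad G s t) * x t :=
        Finset.single_le_sum (f := fun s => (1 - ad G s t) * x t)
          (fun s _ => mul_nonneg (by have := ad_le_one G s t; linarith) (h.x0 t)) hs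
      rw [ad_not G _ _ hna] at h3
      linarith
    calc ∑ t ∈ T \ F, x t ≤ ∑ t ∈ T \ F, ∑ s ∈ S, (1 - ad G s t) * x t :=
          Finset.sum_le_sum h1
      _ ≤ ∑ t ∈ T, ∑ s ∈ S, (1 - ad G s t) * x t := by
          apply Finset.sum_le_sum_of_subset_of_nonneg Finset.sdiff_subset
          intro t _ _
          exact Finset.sum_nonneg (fun s _ =>
            mul_nonneg (by have := ad_le_one G s t; linarith) (h.x0 t))
      _ = q1 G x S T := by
          unfold q1
          rw [Finset.sum_comm]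
  have hdgF : ∀ t ∈ T, dg G F t ≤ 1 := by
    intro t ht
    rw [dg_card]
    have h1 : (F.filter (G.Adj t)).card ≤ 1 := by
      rw [Finset.card_le_one]
      intro a ha b' hb
      by_contra hab
      rw [Finset.mem_filter] at ha hb
      apply hfree
      apply fan_path G k u S F hcard hFc hS
        (fun j hj => ((mem_rst _ _).1 (hFT hj)).1)
        (fun i hi j hj => (Finset.mem_filter.1 hj).2 i hi) t a b' ha.1 hb.1 hab ha.2 hb.2
      · exact ((mem_rst _ _).1 ht).1
      · exact ((mem_rst _ _).1 ht).2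
    exact_mod_cast h1
  have hlight : ∀ r, r ≠ u → r ∉ S → x r ≤ 1 / 4 := by
    intro r hru hrS
    have h1 := hrow r
    have h9 : lam * x r ≤ lam * (1 / 4) := by
      by_cases hur : G.Adj u r
      · have hrT : r ∈ T := (mem_rst _ _).2 ⟨hur, hrS⟩
        have h2 := hdgF r hrT
        have h3 := dg_le_EE (G := G) T W r hrT
        rw [EE_comm T W] at h3
        have h4 : ad G r u ≤ 1 := ad_le_one G _ _
        have h5 : dg G S r ≤ K - 1 := by
          rw [← hcardK]
          unfold dg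
          calc ∑ w ∈ S, ad G r w ≤ ∑ w ∈ S, (1:ℝ) :=
                Finset.sum_le_sum (fun _ _ => ad_le_one G _ _)
            _ = S.card := by simp
        have h6 : ∑ w ∈ T, ad G r w * x w =
            ∑ w ∈ T \ F, ad G r w * x w + ∑ w ∈ F, ad G r w * x w := by
          rw [Finset.sum_sdiff hFT]
        have h7 : ∑ w ∈ T \ F, ad G r w * x w ≤ ∑ w ∈ T \ F, x w :=
          Finset.sum_le_sum (fun v _ => mul_le_of_le_one_left (h.x0 v) (ad_le_one G _ _))
        have h8 : ∑ w ∈ F, ad G r w * x w ≤ dg G F r :=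
          Finset.sum_le_sum (fun w _ => mul_le_of_le_one_right (ad_nonneg G _ _) (h.x1 w))
        linarith
      · have hrW : r ∈ W := (mem_far _).2 ⟨hru, hur⟩
        have h2 := dg_le_EE (G := G) W S r hrW
        have h3 := dg_le_EE (G := G) W T r hrW
        have h4 := dg_le_EE (G := G) W W r hrW
        have h5 : ad G r u = 0 := ad_not G _ _ (fun h' => hur h'.symm)
        have h8 : ∑ w ∈ T, ad G r w * x w ≤ dg G T r :=
          Finset.sum_le_sum (fun w _ => mul_le_of_le_one_right (ad_nonneg G _ _) (h.x1 w))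
        linarith
    exact le_of_mul_le_mul_left h9 hlampos
  obtain ⟨hcl, hZ⟩ := core_light h S hS K c0 hK hcardK (by linarith) hc0 hc1 hlow
    (by rw [← hT, ← hW]; exact hR) hlight
  rw [hc0K] at hZ
  have huS : u ∉ S := fun hu => (hS u hu).ne rfl
  apply finish G k l m n hl1 hl hG hiso (insert u S)
  · rw [Finset.card_insert_of_notMem huS, hcard]
  · intro a ha a' hb hab
    rw [Finset.mem_insert] at ha hb
    rcases ha with rfl | ha <;> rcases hb with rfl | hb
    · exact absurd rfl hab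
    · exact hS a' hb
    · exact (hS a ha).symm
    · exact hcl a ha a' hb hab
  · exact hmod
  · exact hn
  · rw [← hKdef]; exact hZ

/-- For every `k ≥ 2` there is `m₀` such that for all `m ≥ m₀` with
`m + k(k+1)/2 ≡ l (mod k)`, `1 ≤ l ≤ k-1`, and `n = (m-l)/k + (k+3)/2`, every
`F_{2k+2} = K_1 ∨ P_{2k+1}`-free graph with `m` edges and no isolated vertices has spectral
radius at most that of `S^{1,l}_{n,k}`, with equality exactly for graphs isomorphic to
`S^{1,l}_{n,k}`. -/
theorem result : ∀ k : ℕ, 2 ≤ k → ∃ m₀ : ℕ, ∀ m : ℕ, m₀ ≤ m → ∀ l n : ℕ, 1 ≤ l → l ≤ k - 1 →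
    m + k * (k + 1) / 2 ≡ l [MOD k] →
    (n : ℚ) = ((m : ℚ) - l) / k + (k + 3) / 2 →
    ∀ (V : Type) (_ : Fintype V) (G : SimpleGraph V),
      G.edgeSet.ncard = m → (∀ v, ∃ w, G.Adj v w) → ¬ (fan (2 * k + 1)).IsContained G →
      specRad G ≤ specRad (S1 n k l) ∧
      (specRad G = specRad (S1 n k l) ↔ Nonempty (G ≃g S1 n k l)) := by
  classical
  intro k hk
  refine ⟨(10 ^ 60 * k ^ 60 * 2 ^ (4 * k)) ^ 2 + k ^ 2 + k, ?_⟩
  intro m hm l n hl1 hl hmod hn V _ G hG hiso hfree
  have hG' : G.edgeFinset.card = m := by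
    rw [← hG, Set.ncard_eq_toFinset_card']
    rfl
  have key : specRad (S1 n k l) ≤ specRad G → Nonempty (G ≃g S1 n k l) :=
    main_iso k l m n hk hl1 (by omega) hm hmod hn G hG' hiso hfree
  have hVne : Nonempty V := by
    by_contra hcon
    rw [not_nonempty_iff] at hcon
    have h1 : G.edgeFinset.card = 0 := by
      rw [Finset.card_eq_zero, Finset.eq_empty_iff_forall_notMem]
      intro e
      induction e with
      | _ a b => exact (IsEmpty.false a).elim
    have h2 : 0 < k ^ 2 := by positivity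
    omega
  have hSne : Nonempty (Fin l ⊕ ((Fin (k - l) ⊕ Fin (n - k - 1)) ⊕ Fin 1)) :=
    ⟨Sum.inr (Sum.inr 0)⟩
  have hiso_eq : Nonempty (G ≃g S1 n k l) → specRad G = specRad (S1 n k l) := by
    rintro ⟨e⟩
    exact specRad_iso G (S1 n k l) e
  refine ⟨?_, ?_, hiso_eq⟩
  · rcases le_total (specRad G) (specRad (S1 n k l)) with h | h
    · exact h
    · exact (hiso_eq (key h)).le
  · intro h
    exact key h.ge

end Pool.Agent.Results.MP_0daf67_co.NonDivisible
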